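import Pool.Agent.H.MP_aeb38e_lc.SJ.Sch

/-!
Short jobs with general processing times: the makespan may be nearly `m` times the largest load.
-/

namespace Pool.Agent.H.JS

open Finset

/-- Bonferroni's inequality. -/
theorem bonf {α : Type*} [DecidableEq α] (B : ℕ → Finset α) (k : ℕ) :
    ∑ j ∈ range k, (B j).card ≤ ((range k).biUnion B).card +
      ∑ j ∈ range k, ∑ i ∈ range j, (B i ∩ B j).card := by
  induction k with
  | zero => simp
  | succ k ih =>
    have h1 : (range (k + 1)).biUnion B = (range k).biUnion B ∪ B k := by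
      rw [range_add_one, biUnion_insert, union_comm]
    have h2 := card_union_add_card_inter ((range k).biUnion B) (B k)
    have h3 : (((range k).biUnion B) ∩ B k).card ≤ ∑ i ∈ range k, (B i ∩ B k).card := by
      rw [biUnion_inter]
      exact card_biUnion_le
    rw [sum_range_succ, sum_range_succ, h1]
    omega

/-- An interval of natural numbers which does not meet a residue class modulo `m` has at most
`m - 1` members. -/
theorem card_convex {m r : ℕ} (hr : r < m) (R : Finset ℕ)
    (hc : ∀ x ∈ R, ∀ y ∈ R, ∀ z, x ≤ z → z ≤ y → z ∈ R) (hR : ∀ z ∈ R, z % m ≠ r) :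
    R.card ≤ m - 1 := by
  rcases R.eq_empty_or_nonempty with h | h
  · rw [h]
    exact Nat.zero_le _
  · set a := R.min' h with ha
    have hsub : R ⊆ Ico a (a + (m - 1)) := by
      intro y hy
      rw [mem_Ico]
      refine ⟨R.min'_le y hy, ?_⟩
      by_contra hcon
      have hy' : a + (m - 1) ≤ y := not_lt.1 hcon
      -- among `a, ..., a + m - 1` there is a member of the class
      have hz : ∃ z, a ≤ z ∧ z ≤ a + (m - 1) ∧ z % m = r := by
        have hm : 0 < m := by omega
        refine ⟨a + (r + (m - a % m)) % m, by omega, ?_, ?_⟩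
        · have := Nat.mod_lt (r + (m - a % m)) hm
          omega
        · have h1 : a % m < m := Nat.mod_lt _ hm
          rw [Nat.add_mod, Nat.mod_mod, ← Nat.add_mod]
          have h2 : a + (r + (m - a % m)) = r + m * (a / m + 1) := by
            have h3 := Nat.div_add_mod a m
            have h4 : m * (a / m + 1) = m * (a / m) + m := by ring
            omega
          rw [h2, Nat.add_mul_mod_self_left, Nat.mod_eq_of_lt hr]
      obtain ⟨z, h1, h2, h3⟩ := hz
      exact hR z (hc a (R.min'_mem h) y hy z h1 (h2.trans hy')) h3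
    calc R.card ≤ (Ico a (a + (m - 1))).card := card_le_card hsub
      _ = m - 1 := by rw [Nat.card_Ico]; omega

/-- The instance: the job `j` runs `q ^ (k - 1 - j)` times through the machines, with processing
times `q ^ j`. -/
def gapI (m k q : ℕ) : Shop :=
  (m, (List.range k).map fun j => (List.range (m * q ^ (k - 1 - j))).map fun i => (i % m, q ^ j))

theorem isOp_gapI {m k q j i u p : ℕ} : IsOp (gapI m k q) j i u p ↔
    j < k ∧ i < m * q ^ (k - 1 - j) ∧ u = i % m ∧ p = q ^ j := by
  unfold IsOp gapI
  constructor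
  · rintro ⟨job, h1, h2⟩
    dsimp only at h1
    rw [List.getElem?_map, Option.map_eq_some_iff] at h1
    obtain ⟨j', hj', rfl⟩ := h1
    rw [List.getElem?_eq_some_iff] at hj'
    obtain ⟨hj1, hj2⟩ := hj'
    rw [List.getElem_range] at hj2
    rw [List.length_range] at hj1
    subst hj2
    rw [List.getElem?_map, Option.map_eq_some_iff] at h2
    obtain ⟨i', hi', h3⟩ := h2
    rw [List.getElem?_eq_some_iff] at hi'
    obtain ⟨hi1, hi2⟩ := hi'
    rw [List.getElem_range] at hi2
    rw [List.length_range] at hi1
    subst hi2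
    simp only [Prod.mk.injEq] at h3
    exact ⟨hj1, hi1, h3.1.symm, h3.2.symm⟩
  · rintro ⟨h1, h2, rfl, rfl⟩
    refine ⟨(List.range (m * q ^ (k - 1 - j))).map fun i => (i % m, q ^ j), ?_, ?_⟩
    · dsimp only
      rw [List.getElem?_map, List.getElem?_range h1]
      rfl
    · rw [List.getElem?_map, List.getElem?_range h2]
      rfl

/-- The time slots of the operation `i` of the job `j`. -/
def slots (st : ℕ → ℕ → ℕ) (q j i : ℕ) : Finset ℕ := Ico (st j i) (st j i + q ^ j)

/-- The time slots of the job `j`. -/
def busy (st : ℕ → ℕ → ℕ) (m k q j : ℕ) : Finset ℕ :=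
  (range (m * q ^ (k - 1 - j))).biUnion fun i => slots st q j i

section
variable {m k q : ℕ} {st : ℕ → ℕ → ℕ}

theorem st_step (hf : Feasible (gapI m k q) st) {j : ℕ} (hj : j < k) {x y : ℕ} (hxy : x < y)
    (hy : y < m * q ^ (k - 1 - j)) : st j x + q ^ j ≤ st j y := by
  have key : ∀ n, x + n + 1 < m * q ^ (k - 1 - j) → st j x + q ^ j ≤ st j (x + n + 1) := by
    intro n
    induction n with
    | zero =>
      intro h
      exact hf.1 j x _ _ _ _ (isOp_gapI.2 ⟨hj, by omega, rfl, rfl⟩)
        (isOp_gapI.2 ⟨hj, h, rfl, rfl⟩)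
    | succ n ih =>
      intro h
      have h1 := ih (by omega)
      have h2 := hf.1 j (x + n + 1) _ _ _ _ (isOp_gapI.2 ⟨hj, by omega, rfl, rfl⟩)
        (isOp_gapI.2 ⟨hj, h, rfl, rfl⟩)
      have h3 : x + (n + 1) + 1 = x + n + 1 + 1 := by omega
      rw [h3]
      omega
  obtain ⟨n, rfl⟩ := Nat.exists_eq_add_of_lt hxy
  exact key n hy

theorem busy_card (hf : Feasible (gapI m k q) st) {j : ℕ} (hj : j < k) :
    (busy st m k q j).card = m * q ^ (k - 1 - j) * q ^ j := by
  unfold busy
  rw [card_biUnion]
  · have h1 : ∀ i, (slots st q j i).card = q ^ j := fun i => by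
      unfold slots
      rw [Nat.card_Ico]
      omega
    simp only [h1]
    rw [sum_const, card_range, smul_eq_mul]
  · intro x hx y hy hne
    show Disjoint (slots st q j x) (slots st q j y)
    rw [Finset.disjoint_left]
    intro t ht ht'
    unfold slots at ht ht'
    rw [mem_Ico] at ht ht'
    have hx' := mem_range.1 hx
    have hy' := mem_range.1 hy
    rcases lt_or_gt_of_ne hne with h | h
    · have := st_step hf hj h hy'
      omega
    · have := st_step hf hj h hx'
      omega

/-- During an operation of the job `j` a job `i < j` works on at most `m - 1` operations. -/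
theorem inter_slots (hf : Feasible (gapI m k q) st) (hm : 0 < m) (hq : 0 < q) {i j y : ℕ}
    (hij : i < j) (hj : j < k) (hy : y < m * q ^ (k - 1 - j)) :
    (busy st m k q i ∩ slots st q j y).card ≤ (m - 1) * q ^ i := by
  set R := (range (m * q ^ (k - 1 - i))).filter
    (fun x => (slots st q i x ∩ slots st q j y).Nonempty) with hR
  have hqi : 0 < q ^ i := pow_pos hq _
  have hsub : busy st m k q i ∩ slots st q j y ⊆ R.biUnion fun x => slots st q i x := by
    intro t ht
    rw [mem_inter] at ht
    unfold busy at ht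
    obtain ⟨x, hx, hxt⟩ := mem_biUnion.1 ht.1
    exact mem_biUnion.2 ⟨x, mem_filter.2 ⟨hx, ⟨t, mem_inter.2 ⟨hxt, ht.2⟩⟩⟩, hxt⟩
  have hcard : R.card ≤ m - 1 := by
    refine card_convex (Nat.mod_lt y hm) R ?_ ?_
    · intro x hx x' hx' z h1 h2
      rw [hR, mem_filter, mem_range] at hx hx' ⊢
      have hz : z < m * q ^ (k - 1 - i) := lt_of_le_of_lt h2 hx'.1
      refine ⟨hz, ?_⟩
      rcases Nat.lt_or_ge x z with h3 | h3
      · rcases Nat.lt_or_ge z x' with h4 | h4
        · obtain ⟨t, ht⟩ := hx.2
          obtain ⟨t', ht'⟩ := hx'.2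
          unfold slots at ht ht'
          rw [mem_inter, mem_Ico, mem_Ico] at ht ht'
          have h5 := st_step hf (hij.trans hj) h3 hz
          have h6 := st_step hf (hij.trans hj) h4 hx'.1
          refine ⟨st i z, ?_⟩
          unfold slots
          rw [mem_inter, mem_Ico, mem_Ico]
          omega
        · have : z = x' := le_antisymm h2 h4
          rw [this]
          exact hx'.2
      · have : z = x := le_antisymm h3 h1
        rw [this]
        exact hx.2
    · intro z hz hmod
      rw [hR, mem_filter, mem_range] at hz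
      obtain ⟨t, ht⟩ := hz.2
      unfold slots at ht
      rw [mem_inter, mem_Ico, mem_Ico] at ht
      have h1 := hf.2 i z j y (z % m) _ _ (isOp_gapI.2 ⟨hij.trans hj, hz.1, rfl, rfl⟩)
        (isOp_gapI.2 ⟨hj, hy, hmod, rfl⟩) (by
          intro hc
          have := (Prod.mk.inj hc).1
          omega)
      omega
  calc (busy st m k q i ∩ slots st q j y).card ≤
      (R.biUnion fun x => slots st q i x).card := card_le_card hsub
    _ ≤ ∑ x ∈ R, (slots st q i x).card := card_biUnion_le
    _ = R.card * q ^ i := by
        have h1 : ∀ x, (slots st q i x).card = q ^ i := fun x => by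
          unfold slots
          rw [Nat.card_Ico]
          omega
        simp only [h1]
        rw [sum_const, smul_eq_mul]
    _ ≤ _ := Nat.mul_le_mul_right _ hcard

theorem inter_busy (hf : Feasible (gapI m k q) st) (hm : 0 < m) (hq : 0 < q) {i j : ℕ}
    (hij : i < j) (hj : j < k) :
    q * (busy st m k q i ∩ busy st m k q j).card ≤ m * m * q ^ (k - 1) := by
  have h1 : (busy st m k q i ∩ busy st m k q j).card ≤
      m * q ^ (k - 1 - j) * ((m - 1) * q ^ i) := by
    have e1 : busy st m k q i ∩ busy st m k q j =
        (range (m * q ^ (k - 1 - j))).biUnion fun y =>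
          busy st m k q i ∩ slots st q j y := by
      rw [show busy st m k q j = (range (m * q ^ (k - 1 - j))).biUnion
        (fun y => slots st q j y) from rfl, inter_biUnion]
    rw [e1]
    refine card_biUnion_le.trans ?_
    calc ∑ y ∈ range (m * q ^ (k - 1 - j)), (busy st m k q i ∩ slots st q j y).card ≤
        ∑ y ∈ range (m * q ^ (k - 1 - j)), (m - 1) * q ^ i :=
          sum_le_sum fun y hy => inter_slots hf hm hq hij hj (mem_range.1 hy)
      _ = _ := by rw [sum_const, card_range, smul_eq_mul]
  calc q * (busy st m k q i ∩ busy st m k q j).card ≤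
      q * (m * q ^ (k - 1 - j) * ((m - 1) * q ^ i)) := Nat.mul_le_mul_left _ h1
    _ = m * (m - 1) * q ^ (1 + (k - 1 - j) + i) := by rw [pow_add, pow_add, pow_one]; ring
    _ ≤ m * m * q ^ (k - 1) := by
        refine Nat.mul_le_mul (Nat.mul_le_mul_left _ (Nat.sub_le _ _)) ?_
        exact Nat.pow_le_pow_right hq (by omega)

/-- The lower bound for the makespan. -/
theorem gap_lower (hf : Feasible (gapI m k q) st) (hm : 0 < m) (hq : 0 < q) {K : ℕ}
    (hK : EndsBy (gapI m k q) st K) :
    q * (k * (m * q ^ (k - 1))) ≤ q * K + k * k * (m * m * q ^ (k - 1)) := by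
  have h1 := bonf (fun j => busy st m k q j) k
  have h2 : ∑ j ∈ range k, (busy st m k q j).card = k * (m * q ^ (k - 1)) := by
    calc ∑ j ∈ range k, (busy st m k q j).card = ∑ j ∈ range k, m * q ^ (k - 1) := by
          refine sum_congr rfl fun j hj => ?_
          have hj' := mem_range.1 hj
          rw [busy_card hf hj', mul_assoc, ← pow_add]
          congr 2
          omega
      _ = _ := by rw [sum_const, card_range, smul_eq_mul]
  have h3 : ((range k).biUnion fun j => busy st m k q j).card ≤ K := by
    rw [← card_range K]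
    refine card_le_card ?_
    intro t ht
    obtain ⟨j, hj, hjt⟩ := mem_biUnion.1 ht
    unfold busy at hjt
    obtain ⟨i, hi, hit⟩ := mem_biUnion.1 hjt
    unfold slots at hit
    rw [mem_Ico] at hit
    have := hK j i _ _ (isOp_gapI.2 ⟨mem_range.1 hj, mem_range.1 hi, rfl, rfl⟩)
    rw [mem_range]
    omega
  have h4 : q * ∑ j ∈ range k, ∑ i ∈ range j, (busy st m k q i ∩ busy st m k q j).card ≤
      k * k * (m * m * q ^ (k - 1)) := by
    rw [mul_sum]
    calc ∑ j ∈ range k, q * ∑ i ∈ range j, (busy st m k q i ∩ busy st m k q j).card ≤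
        ∑ j ∈ range k, k * (m * m * q ^ (k - 1)) := by
          refine sum_le_sum fun j hj => ?_
          rw [mul_sum]
          have hj' := mem_range.1 hj
          calc ∑ i ∈ range j, q * (busy st m k q i ∩ busy st m k q j).card ≤
              ∑ i ∈ range j, m * m * q ^ (k - 1) :=
                sum_le_sum fun i hi => inter_busy hf hm hq (mem_range.1 hi) hj'
            _ = j * (m * m * q ^ (k - 1)) := by rw [sum_const, card_range, smul_eq_mul]
            _ ≤ _ := Nat.mul_le_mul_right _ hj'.le
      _ = _ := by rw [sum_const, card_range, smul_eq_mul]; ring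
  rw [h2] at h1
  calc q * (k * (m * q ^ (k - 1))) ≤ q * (((range k).biUnion fun j => busy st m k q j).card +
      ∑ j ∈ range k, ∑ i ∈ range j, (busy st m k q i ∩ busy st m k q j).card) :=
        Nat.mul_le_mul_left _ h1
    _ = q * ((range k).biUnion fun j => busy st m k q j).card +
        q * ∑ j ∈ range k, ∑ i ∈ range j, (busy st m k q i ∩ busy st m k q j).card := by ring
    _ ≤ _ := Nat.add_le_add (Nat.mul_le_mul_left _ h3) h4

end

end Pool.Agent.H.JS
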