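import Pool.Agent.H.MP_aeb38e_lc.ST.Gap
import Pool.Agent.H.MP_aeb38e_lc.SJ.Bound

/-!
The theorem on short jobs with general processing times.
-/

namespace Pool.Agent.H.JS

open Finset

theorem sum_cyc (m a u c : ℕ) (hu : u < m) :
    ∑ i ∈ range (m * a), (if i % m = u then c else 0) = a * c := by
  induction a with
  | zero => simp
  | succ a ih =>
    have h1 : m * (a + 1) = m * a + m := by ring
    rw [h1, sum_range_add, ih]
    have h2 : ∑ r ∈ range m, (if (m * a + r) % m = u then c else 0) = c := by
      have h3 : ∀ r ∈ range m, (if (m * a + r) % m = u then c else 0) =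
          if r = u then c else 0 := by
        intro r hr
        rw [Nat.mul_add_mod, Nat.mod_eq_of_lt (mem_range.1 hr)]
      rw [sum_congr rfl h3, sum_ite_eq', if_pos (mem_range.2 hu)]
    rw [h2]
    ring

theorem jobc_gapI {m k q j : ℕ} (hj : j < k) : jobc (gapI m k q) j =
    (List.range (m * q ^ (k - 1 - j))).map fun i => (i % m, q ^ j) := by
  unfold jobc gapI
  rw [List.getD_eq_getElem?_getD]
  dsimp only
  rw [List.getElem?_map, List.getElem?_range hj]
  rfl

theorem load_gapI {m k q u : ℕ} (hq : 0 < q) (hu : u < m) :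
    load (gapI m k q) u = k * q ^ (k - 1) := by
  have hn : ∀ job ∈ (gapI m k q).2, job.length ≤ m * q ^ (k - 1) := by
    intro job hjob
    unfold gapI at hjob
    obtain ⟨j, -, rfl⟩ := List.mem_map.1 hjob
    rw [List.length_map, List.length_range]
    exact Nat.mul_le_mul_left _ (Nat.pow_le_pow_right hq (Nat.sub_le _ _))
  rw [← load_eq hn]
  have hlen : (gapI m k q).2.length = k := by
    unfold gapI
    rw [List.length_map, List.length_range]
  rw [hlen]
  calc ∑ j ∈ range k, ∑ i ∈ range (m * q ^ (k - 1)), opc (jobc (gapI m k q) j) u i =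
      ∑ j ∈ range k, q ^ (k - 1) := by
        refine sum_congr rfl fun j hj => ?_
        have hj' := mem_range.1 hj
        have h1 : (jobc (gapI m k q) j).length = m * q ^ (k - 1 - j) := by
          rw [jobc_gapI hj', List.length_map, List.length_range]
        rw [opc_sum u _ (jobc_length hn j), ← opc_sum u _ h1.le]
        have h2 : ∀ i ∈ range (m * q ^ (k - 1 - j)), opc (jobc (gapI m k q) j) u i =
            if i % m = u then q ^ j else 0 := by
          intro i hi
          unfold opc
          rw [jobc_gapI hj', List.getElem?_map, List.getElem?_range (mem_range.1 hi)]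
          rfl
        rw [sum_congr rfl h2, sum_cyc m _ u _ hu, ← pow_add]
        congr 1
        omega
    _ = _ := by rw [sum_const, card_range, smul_eq_mul]

theorem time_gapI {m k q : ℕ} (job : List (ℕ × ℕ)) (h : job ∈ (gapI m k q).2) :
    (job.map Prod.snd).sum = m * q ^ (k - 1) := by
  unfold gapI at h
  obtain ⟨j, hj, rfl⟩ := List.mem_map.1 h
  have hj' := List.mem_range.1 hj
  rw [List.map_map]
  have h1 : (Prod.snd ∘ fun i : ℕ => (i % m, q ^ j)) = fun _ => q ^ j := rfl
  rw [h1, List.map_const', List.length_range, List.sum_replicate, smul_eq_mul, mul_assoc,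
    ← pow_add]
  congr 2
  omega

/-- Short jobs do not help for general processing times. -/
theorem main_gap (m e k : ℕ) (hm : 0 < m) (he : 0 < e) (hk : 0 < k) :
    ∃ (I : Shop) (C : ℕ), I.1 = m ∧ I.2.length = k ∧ 0 < C ∧
      (∀ j i u p, IsOp I j i u p → u = i % m ∧ 0 < p) ∧ (∀ u < m, load I u = C) ∧
      (∀ job ∈ I.2, k * (job.map Prod.snd).sum = m * C) ∧
      m * e * C ≤ e * OPT I + C := by
  obtain ⟨q, hq⟩ : ∃ q, q = e * (k * (m * m)) := ⟨_, rfl⟩
  have hq0 : 0 < q := by rw [hq]; positivity
  refine ⟨gapI m k q, k * q ^ (k - 1), rfl, ?_, by positivity, ?_, fun u hu => load_gapI hq0 hu,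
    ?_, ?_⟩
  · unfold gapI
    rw [List.length_map, List.length_range]
  · intro j i u p h
    obtain ⟨-, -, h1, h2⟩ := isOp_gapI.1 h
    exact ⟨h1, h2 ▸ pow_pos hq0 _⟩
  · intro job hjob
    rw [time_gapI job hjob]
    ring
  · have hmach : ∀ j i u p, IsOp (gapI m k q) j i u p → u < (gapI m k q).1 := by
      intro j i u p h
      obtain ⟨-, -, h1, -⟩ := isOp_gapI.1 h
      rw [h1]
      exact Nat.mod_lt _ hm
    have hn : ∀ job ∈ (gapI m k q).2, job.length ≤ m * q ^ (k - 1) := by
      intro job hjob
      unfold gapI at hjob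
      obtain ⟨j, -, rfl⟩ := List.mem_map.1 hjob
      rw [List.length_map, List.length_range]
      exact Nat.mul_le_mul_left _ (Nat.pow_le_pow_right hq0 (Nat.sub_le _ _))
    have hne : {K | ∃ st, Feasible (gapI m k q) st ∧ EndsBy (gapI m k q) st K}.Nonempty :=
      ⟨_, _, schc_feasible hmach (fun _ => 0),
        schc_ends hmach (N := 1) hn (fun _ => Nat.one_pos)⟩
    obtain ⟨st, hf, hK⟩ := Nat.sInf_mem hne
    have h1 := gap_lower hf hm hq0 hK
    have h2 : (k * (m * m)) * (m * e * (k * q ^ (k - 1))) ≤
        (k * (m * m)) * (e * OPT (gapI m k q) + k * q ^ (k - 1)) := by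
      calc (k * (m * m)) * (m * e * (k * q ^ (k - 1))) =
          (e * (k * (m * m))) * (k * (m * q ^ (k - 1))) := by ring
        _ = q * (k * (m * q ^ (k - 1))) := by rw [← hq]
        _ ≤ q * OPT (gapI m k q) + k * k * (m * m * q ^ (k - 1)) := h1
        _ = (e * (k * (m * m))) * OPT (gapI m k q) + k * k * (m * m * q ^ (k - 1)) := by
            rw [← hq]
        _ = _ := by ring
    exact Nat.le_of_mul_le_mul_left h2 (by positivity)

end Pool.Agent.H.JS
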